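import Mathlib

/-!
# Pattern counting along scales

Elementary form of the argument showing that quadratic phases with irrational leading
coefficient have infinite discrepancy along homogeneous progressions.
-/

namespace Pool.Agent.Lib.MP_10145b_nt

open Finset

/-- `e(t) = exp(2 π i t)`. -/
noncomputable def e (t : ℝ) : ℂ := Complex.exp (2 * Real.pi * t * Complex.I)

lemma e_add (s t : ℝ) : e (s + t) = e s * e t := by
  unfold e
  rw [← Complex.exp_add]
  congr 1
  push_cast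
  ring

lemma e_int (z : ℤ) : e z = 1 := by
  unfold e
  rw [Complex.exp_eq_one_iff]
  exact ⟨z, by push_cast; ring⟩

lemma norm_e (t : ℝ) : ‖e t‖ = 1 := by
  unfold e
  rw [show (2 * (Real.pi : ℂ) * (t : ℂ) * Complex.I) = ((2 * Real.pi * t : ℝ) : ℂ) * Complex.I by
    push_cast; ring]
  exact Complex.norm_exp_ofReal_mul_I _

lemma conj_e (t : ℝ) : (starRingEnd ℂ) (e t) = e (-t) := by
  unfold e
  rw [← Complex.exp_conj]
  congr 1
  rw [map_mul, map_mul, map_mul, Complex.conj_I, Complex.conj_ofReal, Complex.conj_ofReal,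
    map_ofNat]
  push_cast
  ring

lemma e_nat_mul (n : ℕ) (t : ℝ) : e (n * t) = e t ^ n := by
  unfold e
  rw [← Complex.exp_nat_mul]
  congr 1
  push_cast
  ring

lemma norm_e_sub_one_le (t : ℝ) : ‖e t - 1‖ ≤ 2 * Real.pi * |t| := by
  unfold e
  rw [show (2 * (Real.pi : ℂ) * (t : ℂ) * Complex.I) = Complex.I * ((2 * Real.pi * t : ℝ) : ℂ) by
    push_cast; ring]
  refine (Real.norm_exp_I_mul_ofReal_sub_one_le).trans ?_
  rw [Real.norm_eq_abs, abs_mul, abs_of_pos (by positivity)]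

/-- density of multiples of an irrational number modulo `Q`, along multiples of `Q`. -/
lemma exists_approx {β : ℝ} (hβ : Irrational β) {Q : ℕ} (hQ : 0 < Q) (x : ℝ) {ε : ℝ}
    (hε : 0 < ε) : ∃ n : ℕ, Q ∣ n ∧ ∃ z : ℤ, |β * n - x - Q * z| < ε := by
  have h1 : DenseRange (fun n : ℤ => n • ((β : ℝ) : AddCircle (1 : ℝ))) :=
    AddCircle.denseRange_zsmul_coe_iff.mpr (by simpa using hβ)
  have h2 : DenseRange (fun n : ℕ => n • ((β : ℝ) : AddCircle (1 : ℝ))) :=
    denseRange_zsmul_iff_nsmul.mp h1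
  have hQ' : (0 : ℝ) < Q := by exact_mod_cast hQ
  obtain ⟨j, hj⟩ := h2.exists_dist_lt ((x / Q : ℝ) : AddCircle (1 : ℝ)) (div_pos hε hQ')
  refine ⟨Q * j, dvd_mul_right _ _, round (β * j - x / Q), ?_⟩
  rw [dist_comm, dist_eq_norm] at hj
  have h3 : (j • ((β : ℝ) : AddCircle (1 : ℝ)) - ((x / Q : ℝ) : AddCircle (1 : ℝ)))
      = ((β * j - x / Q : ℝ) : AddCircle (1 : ℝ)) := by
    rw [← AddCircle.coe_nsmul, ← AddCircle.coe_sub]
    congr 1
    rw [nsmul_eq_mul]; ring
  rw [h3] at hj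
  have h4 := UnitAddCircle.norm_eq (x := β * j - x / Q)
  rw [h4] at hj
  have h5 : β * ((Q * j : ℕ) : ℝ) - x - Q * ((round (β * j - x / Q) : ℤ) : ℝ)
      = Q * (β * j - x / Q - round (β * j - x / Q)) := by
    push_cast
    field_simp
  rw [h5, abs_mul, abs_of_pos hQ']
  calc (Q : ℝ) * |β * j - x / Q - round (β * j - x / Q)| < Q * (ε / Q) := by
        exact mul_lt_mul_of_pos_left hj hQ'
    _ = ε := by field_simp

lemma e_eq_one_iff (t : ℝ) : e t = 1 ↔ ∃ n : ℤ, t = n := by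
  constructor
  · intro h
    unfold e at h
    rw [Complex.exp_eq_one_iff] at h
    obtain ⟨n, hn⟩ := h
    refine ⟨n, ?_⟩
    have h2 : (2 * (Real.pi : ℂ) * Complex.I) ≠ 0 := Complex.two_pi_I_ne_zero
    have h3 : (t : ℂ) = n := by
      have : (2 * (Real.pi : ℂ) * Complex.I) * (t : ℂ) = (2 * (Real.pi : ℂ) * Complex.I) * n := by
        linear_combination hn
      exact mul_left_cancel₀ h2 this
    exact_mod_cast h3
  · rintro ⟨n, rfl⟩
    exact e_int n

lemma geom_e {p : ℕ} (hp : 0 < p) {m : ℤ} (hm : ¬ (p : ℤ) ∣ m) :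
    ∑ v ∈ range p, e ((m : ℝ) / p * v) = 0 := by
  have hp' : (p : ℝ) ≠ 0 := by positivity
  have h1 : ∀ v ∈ range p, e ((m : ℝ) / p * v) = e ((m : ℝ) / p) ^ v := by
    intro v _
    rw [← e_nat_mul]
    congr 1
    ring
  rw [Finset.sum_congr rfl h1]
  have hz : e ((m : ℝ) / p) ≠ 1 := by
    intro h
    obtain ⟨n, hn⟩ := (e_eq_one_iff _).mp h
    apply hm
    refine ⟨n, ?_⟩
    have : (m : ℝ) = p * n := by
      field_simp at hn
      linarith
    exact_mod_cast this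
  have hzp : e ((m : ℝ) / p) ^ p = 1 := by
    rw [← e_nat_mul, mul_div_cancel₀ _ hp']
    exact e_int m
  rw [geom_sum_eq hz, hzp]
  simp

/-- Orthogonality: mean square of an exponential polynomial over the `p`-torsion coset. -/
lemma sum_sq {p H Q : ℕ} (hp : p.Prime) (hQ : ¬ p ∣ Q) (hH : H ≤ p) (c : ℕ → ℂ)
    (hc : ∀ i, ‖c i‖ = 1) (θ : ℝ) :
    ∑ v ∈ range p, ‖∑ i ∈ Icc 1 H, e ((θ + (Q : ℝ) * v / p) * i) * c i‖ ^ 2 = p * H := by
  have hp' : (p : ℝ) ≠ 0 := by exact_mod_cast hp.ne_zero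
  have key : ((∑ v ∈ range p, ‖∑ i ∈ Icc 1 H, e ((θ + (Q : ℝ) * v / p) * i) * c i‖ ^ 2 : ℝ) : ℂ)
      = ((p * H : ℝ) : ℂ) := by
    push_cast
    have h1 : ∀ v : ℕ, ((‖∑ i ∈ Icc 1 H, e ((θ + (Q : ℝ) * v / p) * i) * c i‖ : ℂ)) ^ 2
        = ∑ i ∈ Icc 1 H, ∑ j ∈ Icc 1 H,
          (e (θ * (i - j)) * c i * (starRingEnd ℂ) (c j)) *
            e (((Q * ((i : ℤ) - j) : ℤ) : ℝ) / p * v) := by
      intro v
      rw [← Complex.mul_conj', map_sum, Finset.sum_mul_sum]
      refine Finset.sum_congr rfl fun i _ => Finset.sum_congr rfl fun j _ => ?_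
      rw [map_mul, conj_e]
      have h2 : e ((θ + (Q : ℝ) * v / p) * i) * e (-((θ + (Q : ℝ) * v / p) * j))
          = e (θ * (i - j)) * e (((Q * ((i : ℤ) - j) : ℤ) : ℝ) / p * v) := by
        rw [← e_add, ← e_add]
        congr 1
        push_cast
        ring
      linear_combination (c i * (starRingEnd ℂ) (c j)) * h2
    simp_rw [h1]
    rw [Finset.sum_comm]
    have h3 : ∀ i ∈ Icc 1 H, ∑ v ∈ range p, ∑ j ∈ Icc 1 H,
          (e (θ * (i - j)) * c i * (starRingEnd ℂ) (c j)) *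
            e (((Q * ((i : ℤ) - j) : ℤ) : ℝ) / p * v) = p := by
      intro i hi
      rw [Finset.sum_comm]
      rw [Finset.sum_eq_single i]
      · simp only [sub_self, mul_zero, Int.cast_zero, zero_div, zero_mul]
        have h0 : e 0 = 1 := by simpa using e_int 0
        rw [h0, one_mul, mul_one, Complex.mul_conj', hc]
        simp
      · intro j hj hij
        rw [← Finset.mul_sum, geom_e hp.pos, mul_zero]
        intro hdvd
        rcases Int.Prime.dvd_mul' hp hdvd with h | h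
        · exact hQ (by exact_mod_cast h)
        · rw [Finset.mem_Icc] at hi hj
          have h5 : (i : ℤ) - j = 0 := by
            apply Int.eq_zero_of_abs_lt_dvd h
            rw [abs_lt]
            constructor <;> omega
          apply hij
          omega
      · intro h; exact absurd hi h
    rw [Finset.sum_congr rfl h3]
    simp
    ring
  exact_mod_cast key

/-- Most members of a `p`-torsion coset give a large exponential sum. -/
lemma card_small_le {p H Q : ℕ} (hp : p.Prime) (hQ : ¬ p ∣ Q) (hH : H ≤ p) (hH1 : 1 ≤ H)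
    (c : ℕ → ℂ) (hc : ∀ i, ‖c i‖ = 1) (θ : ℝ) {K : ℝ} (hK : 2 * K ^ 2 ≤ H) :
    (((range p).filter fun v : ℕ =>
      ‖∑ i ∈ Icc 1 H, e ((θ + (Q : ℝ) * v / p) * i) * c i‖ ≤ K).card : ℝ)
      ≤ p * (1 - 1 / (2 * H)) := by
  classical
  set B := (range p).filter fun v : ℕ =>
      ‖∑ i ∈ Icc 1 H, e ((θ + (Q : ℝ) * v / p) * i) * c i‖ ≤ K with hB
  have h1 := sum_sq hp hQ hH c hc θ
  have hH0 : (0 : ℝ) < H := by exact_mod_cast hH1
  have hb : ∀ v : ℕ, ‖∑ i ∈ Icc 1 H, e ((θ + (Q : ℝ) * v / p) * i) * c i‖ ≤ H := by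
    intro v
    refine (norm_sum_le _ _).trans ?_
    simp [norm_e, hc]
  have h2 : ∑ v ∈ range p, ‖∑ i ∈ Icc 1 H, e ((θ + (Q : ℝ) * v / p) * i) * c i‖ ^ 2
      ≤ ∑ v ∈ range p, (if v ∈ B then K ^ 2 else (H : ℝ) ^ 2) := by
    refine Finset.sum_le_sum fun v hv => ?_
    split_ifs with h
    · rw [hB, Finset.mem_filter] at h
      exact pow_le_pow_left₀ (norm_nonneg _) h.2 2
    · exact pow_le_pow_left₀ (norm_nonneg _) (hb v) 2
  rw [h1] at h2
  have h3 : ∑ v ∈ range p, (if v ∈ B then K ^ 2 else (H : ℝ) ^ 2)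
      = B.card * K ^ 2 + (p - B.card) * (H : ℝ) ^ 2 := by
    rw [Finset.sum_ite]
    have hBs : B ⊆ range p := Finset.filter_subset _ _
    have e1 : (range p).filter (fun v => v ∈ B) = B := by
      ext v; simp only [Finset.mem_filter]; exact ⟨fun h => h.2, fun h => ⟨hBs h, h⟩⟩
    have e2 : (range p).filter (fun v => v ∉ B) = (range p) \ B := by
      ext v; simp only [Finset.mem_filter, Finset.mem_sdiff]
    rw [e1, e2, Finset.sum_const, Finset.sum_const, nsmul_eq_mul, nsmul_eq_mul,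
      Finset.card_sdiff_of_subset hBs, Finset.card_range, Nat.cast_sub]
    rw [← Finset.card_range p]; exact Finset.card_le_card hBs
  rw [h3] at h2
  have hBp : (B.card : ℝ) ≤ p := by
    have : B.card ≤ p := by
      rw [← Finset.card_range p]; exact Finset.card_le_card (Finset.filter_subset _ _)
    exact_mod_cast this
  have h4 : (B.card : ℝ) * K ^ 2 ≤ p * (H / 2) := by
    have : (B.card : ℝ) * K ^ 2 ≤ B.card * (H / 2) := by
      apply mul_le_mul_of_nonneg_left (by linarith) (by positivity)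
    refine this.trans ?_
    exact mul_le_mul_of_nonneg_right hBp (by positivity)
  have h5 : (p : ℝ) * (H / 2) ≤ (p - B.card) * (H : ℝ) ^ 2 := by linarith
  have h6 : (p : ℝ) / (2 * H) ≤ p - B.card := by
    rw [div_le_iff₀ (by positivity)]
    have : (p : ℝ) * (H / 2) ≤ ((p - B.card) * (2 * H)) * (H / 2) := by
      calc (p : ℝ) * (H / 2) ≤ (p - B.card) * (H : ℝ) ^ 2 := h5
        _ = _ := by ring
    exact le_of_mul_le_mul_right this (by positivity)
  calc (B.card : ℝ) ≤ p - p / (2 * H) := by linarith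
    _ = p * (1 - 1 / (2 * H)) := by ring

section words

variable {S : Type} [Fintype S] [Nonempty S]

/-- The word `W` occurs, in the limit, at the state `(Q, x)` with offset `s`. -/
def Occ (β : ℝ) (X : ℕ → S) (Q : ℕ) (x : ℝ) (s L : ℕ) (W : Fin L → S) : Prop :=
  ∀ ε : ℝ, 0 < ε → ∃ n : ℕ, Q ∣ n ∧ (∃ z : ℤ, |β * n - x - Q * z| < ε) ∧
    ∀ i : Fin L, X (n + s + i) = W i

open Classical in
/-- The set of words occurring at the state `(Q, x)` with offset `s`. -/
noncomputable def A (β : ℝ) (X : ℕ → S) (Q : ℕ) (x : ℝ) (s L : ℕ) : Finset (Fin L → S) :=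
  univ.filter (Occ β X Q x s L)

omit [Nonempty S] in
lemma mem_A {β : ℝ} {X : ℕ → S} {Q : ℕ} {x : ℝ} {s L : ℕ} {W : Fin L → S} :
    W ∈ A β X Q x s L ↔ Occ β X Q x s L W := by
  unfold A
  simp

lemma A_nonempty {β : ℝ} (hβ : Irrational β) (X : ℕ → S) {Q : ℕ} (hQ : 0 < Q) (x : ℝ)
    (s L : ℕ) : (A β X Q x s L).Nonempty := by
  classical
  by_contra hne
  rw [Finset.not_nonempty_iff_eq_empty] at hne
  have h1 : ∀ W : Fin L → S, ∃ ε : ℝ, 0 < ε ∧ ∀ n : ℕ, Q ∣ n → (∃ z : ℤ,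
      |β * n - x - Q * z| < ε) → ¬ ∀ i : Fin L, X (n + s + i) = W i := by
    intro W
    have h2 : ¬ Occ β X Q x s L W := by
      intro h
      have := mem_A.mpr h
      rw [hne] at this
      exact absurd this (Finset.notMem_empty _)
    unfold Occ at h2
    push Not at h2
    obtain ⟨ε, hε, h3⟩ := h2
    refine ⟨ε, hε, fun n hn hz h4 => ?_⟩
    obtain ⟨i, hi⟩ := h3 n hn hz
    exact hi (h4 i)
  choose ε hε h2 using h1
  obtain ⟨W0, _, hW0⟩ := Finset.exists_min_image (univ : Finset (Fin L → S)) ε univ_nonempty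
  obtain ⟨n, hn, z, hz⟩ := exists_approx hβ hQ x (hε W0)
  exact h2 (fun i => X (n + s + i)) n hn ⟨z, hz.trans_le (hW0 _ (mem_univ _))⟩ fun i => rfl

omit [Nonempty S] in
lemma card_A_add (β : ℝ) (X : ℕ → S) (Q : ℕ) (x : ℝ) (s L₁ L₂ : ℕ) :
    (A β X Q x s (L₁ + L₂)).card ≤ (A β X Q x s L₁).card * (A β X Q x (s + L₁) L₂).card := by
  classical
  rw [← Finset.card_product]
  refine Finset.card_le_card_of_injOn
    (fun W => ((fun i : Fin L₁ => W (Fin.castAdd L₂ i)), (fun i : Fin L₂ => W (Fin.natAdd L₁ i))))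
    ?_ ?_
  · intro W hW
    have hW' : Occ β X Q x s (L₁ + L₂) W := mem_A.mp hW
    rw [Finset.mem_coe, Finset.mem_product]
    constructor
    · rw [mem_A]
      intro ε hε
      obtain ⟨n, hn, hz, hi⟩ := hW' ε hε
      exact ⟨n, hn, hz, fun i => by simpa using hi (Fin.castAdd L₂ i)⟩
    · rw [mem_A]
      intro ε hε
      obtain ⟨n, hn, hz, hi⟩ := hW' ε hε
      refine ⟨n, hn, hz, fun i => ?_⟩
      have := hi (Fin.natAdd L₁ i)
      rw [Fin.val_natAdd] at this
      change X (n + (s + L₁) + i) = W (Fin.natAdd L₁ i)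
      rw [← this]
      congr 1
      ring
  · intro W _ W' _ h
    simp only [Prod.mk.injEq] at h
    funext i
    refine Fin.addCases (fun i => ?_) (fun i => ?_) i
    · exact congrFun h.1 i
    · exact congrFun h.2 i

omit [Nonempty S] in
lemma A_mono (β : ℝ) (X : ℕ → S) (Q p : ℕ) (x : ℝ) (v s L : ℕ) :
    A β X (Q * p) (x + Q * v) s L ⊆ A β X Q x s L := by
  intro W hW
  rw [mem_A] at hW ⊢
  intro ε hε
  obtain ⟨n, hn, ⟨z, hz⟩, hi⟩ := hW ε hε
  refine ⟨n, (dvd_mul_right _ _).trans hn, ⟨v + p * z, ?_⟩, hi⟩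
  convert hz using 2
  push_cast
  ring

/-- Extend a finite word by an arbitrary letter. -/
noncomputable def ext {L : ℕ} (W : Fin L → S) (m : ℕ) : S :=
  if hm : m < L then W ⟨m, hm⟩ else Classical.arbitrary S

variable {ℓ : ℕ}

lemma constraint {β K : ℝ} {H : ℕ} {X : ℕ → S} {h : Fin ℓ → ℕ} {c : (Fin ℓ → S) → ℕ → ℂ}
    (hc : ∀ f i, ‖c f i‖ = 1)
    (hX : ∀ p k0 : ℕ, 1 ≤ p →
      ‖∑ i ∈ Icc 1 H, e (β * k0 * i) * c (fun j => X (p * k0 + p * (i + h j))) i‖ ≤ K)
    {hm p Q s r L : ℕ} (hhm : ∀ j, h j ≤ hm) (hp : 1 ≤ p) (hpQ : p ∣ Q) (hr : r < p)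
    (hpr : p ∣ s + r) (hL : p * (H + hm + 1) ≤ L) {x : ℝ} {W : Fin L → S}
    (hW : W ∈ A β X Q x s L) :
    ‖∑ i ∈ Icc 1 H, e ((x + β * (s + r)) / p * i) * c (fun j => ext W (r + p * (i + h j))) i‖
      ≤ K := by
  rw [mem_A] at hW
  refine le_of_forall_pos_le_add fun ε hε => ?_
  have hden : 0 < 2 * Real.pi * H * H + 1 := by positivity
  set ε' := ε / (2 * Real.pi * H * H + 1) with hε'
  have hε'0 : 0 < ε' := div_pos hε hden
  obtain ⟨n, hn, ⟨z, hz⟩, hi⟩ := hW ε' hε'0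
  obtain ⟨q, rfl⟩ := hpQ
  have hpn : p ∣ n + (s + r) := Nat.dvd_add ((dvd_mul_right _ _).trans hn) hpr
  obtain ⟨k0, hk0⟩ := hpn
  have hp0 : (0 : ℝ) < p := by exact_mod_cast hp
  have hk0' : (n : ℝ) + (s + r) = p * k0 := by exact_mod_cast hk0
  set δ : ℝ := (β * n - x - ((p * q : ℕ) : ℝ) * z) / p with hδ
  have hδ' : |δ| ≤ ε' := by
    rw [hδ, abs_div, abs_of_pos hp0]
    refine (div_le_self (abs_nonneg _) (by exact_mod_cast hp)).trans hz.le
  have h1 : ∀ i : ℕ, e (β * k0 * i) = e ((x + β * (s + r)) / p * i) * e (δ * i) := by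
    intro i
    have : β * k0 * i = ((x + β * (s + r)) / p * i) + δ * i + ((q * z * i : ℤ) : ℝ) := by
      rw [hδ]
      have : (k0 : ℝ) = (n + (s + r)) / p := by rw [hk0']; field_simp
      rw [this]
      push_cast
      field_simp
      ring
    rw [this, e_add, e_add, e_int, mul_one]
  have h2 : ∀ i ∈ Icc 1 H, ∀ j, X (p * k0 + p * (i + h j)) = ext W (r + p * (i + h j)) := by
    intro i hiH j
    rw [Finset.mem_Icc] at hiH
    have hlt : r + p * (i + h j) < L := by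
      have h3 : i + h j ≤ H + hm := Nat.add_le_add hiH.2 (hhm j)
      calc r + p * (i + h j) < p + p * (H + hm) := Nat.add_lt_add_of_lt_of_le hr
            (Nat.mul_le_mul_left _ h3)
        _ = p * (H + hm + 1) := by ring
        _ ≤ L := hL
    unfold ext
    rw [dif_pos hlt, ← hi ⟨_, hlt⟩]
    congr 1
    simp only
    rw [← hk0]
    ring
  have h3 := hX p k0 hp
  have h4 : ∑ i ∈ Icc 1 H, e (β * k0 * i) * c (fun j => X (p * k0 + p * (i + h j))) i
      = ∑ i ∈ Icc 1 H, e ((x + β * (s + r)) / p * i) * e (δ * i) *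
        c (fun j => ext W (r + p * (i + h j))) i := by
    refine Finset.sum_congr rfl fun i hiH => ?_
    rw [h1 i]
    congr 2
    funext j
    exact h2 i hiH j
  rw [h4] at h3
  have h5 : ‖∑ i ∈ Icc 1 H, e ((x + β * (s + r)) / p * i) *
        c (fun j => ext W (r + p * (i + h j))) i
      - ∑ i ∈ Icc 1 H, e ((x + β * (s + r)) / p * i) * e (δ * i) *
        c (fun j => ext W (r + p * (i + h j))) i‖ ≤ ε := by
    rw [← Finset.sum_sub_distrib]
    refine (norm_sum_le _ _).trans ?_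
    have h6 : ∀ i ∈ Icc 1 H, ‖e ((x + β * (s + r)) / p * i) *
        c (fun j => ext W (r + p * (i + h j))) i - e ((x + β * (s + r)) / p * i) * e (δ * i) *
        c (fun j => ext W (r + p * (i + h j))) i‖ ≤ 2 * Real.pi * H * ε' := by
      intro i hiH
      rw [Finset.mem_Icc] at hiH
      have : e ((x + β * (s + r)) / p * i) *
        c (fun j => ext W (r + p * (i + h j))) i - e ((x + β * (s + r)) / p * i) * e (δ * i) *
        c (fun j => ext W (r + p * (i + h j))) i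
        = - (e ((x + β * (s + r)) / p * i) * (e (δ * i) - 1) *
            c (fun j => ext W (r + p * (i + h j))) i) := by ring
      rw [this, norm_neg, norm_mul, norm_mul, norm_e, hc, one_mul, mul_one]
      refine (norm_e_sub_one_le _).trans ?_
      rw [abs_mul, Nat.abs_cast]
      have hiH' : (i : ℝ) ≤ H := by exact_mod_cast hiH.2
      calc 2 * Real.pi * (|δ| * i) ≤ 2 * Real.pi * (ε' * H) := by gcongr
        _ = _ := by ring
    refine (Finset.sum_le_sum h6).trans ?_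
    rw [Finset.sum_const, Nat.card_Icc, nsmul_eq_mul, Nat.add_sub_cancel]
    calc (H : ℝ) * (2 * Real.pi * H * ε') = (2 * Real.pi * H * H) * ε' := by ring
      _ ≤ (2 * Real.pi * H * H + 1) * ε' := by
          apply mul_le_mul_of_nonneg_right (by linarith) hε'0.le
      _ = ε := by rw [hε']; field_simp
  have h7 := norm_sub_norm_le (∑ i ∈ Icc 1 H, e ((x + β * (s + r)) / p * i) *
        c (fun j => ext W (r + p * (i + h j))) i) (∑ i ∈ Icc 1 H, e ((x + β * (s + r)) / p * i) *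
        e (δ * i) * c (fun j => ext W (r + p * (i + h j))) i)
  linarith

/-- Double counting: on average over the fibre, the number of words drops by a fixed factor. -/
lemma sum_card_le {β K : ℝ} {H : ℕ} {X : ℕ → S} {h : Fin ℓ → ℕ} {c : (Fin ℓ → S) → ℕ → ℂ}
    (hc : ∀ f i, ‖c f i‖ = 1)
    (hX : ∀ p k0 : ℕ, 1 ≤ p →
      ‖∑ i ∈ Icc 1 H, e (β * k0 * i) * c (fun j => X (p * k0 + p * (i + h j))) i‖ ≤ K)
    (hH1 : 1 ≤ H) (hK : 2 * K ^ 2 ≤ H)
    {hm p Q s L : ℕ} (hhm : ∀ j, h j ≤ hm) (hp : p.Prime) (hpQ : ¬ p ∣ Q) (hpH : H ≤ p)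
    (hL : p * (H + hm + 1) ≤ L) (x : ℝ) :
    ∑ v ∈ range p, ((A β X (Q * p) (x + Q * v) s L).card : ℝ)
      ≤ p * (1 - 1 / (2 * H)) * (A β X Q x s L).card := by
  classical
  obtain ⟨r, hr, hpr⟩ : ∃ r, r < p ∧ p ∣ s + r := by
    refine ⟨(p - s % p) % p, Nat.mod_lt _ hp.pos, ?_⟩
    have h1 := Nat.mod_lt s hp.pos
    rw [Nat.dvd_iff_mod_eq_zero, Nat.add_mod, Nat.mod_mod, ← Nat.add_mod]
    rw [Nat.add_mod]
    by_cases h0 : s % p = 0
    · simp [h0]
    · rw [Nat.mod_eq_of_lt (show p - s % p < p by omega)]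
      rw [Nat.add_sub_cancel' h1.le]
      exact Nat.mod_self p
  have h1 : ∀ v ∈ range p, ((A β X (Q * p) (x + Q * v) s L).card : ℝ)
      = ∑ W ∈ A β X Q x s L, if W ∈ A β X (Q * p) (x + Q * v) s L then (1 : ℝ) else 0 := by
    intro v _
    rw [Finset.sum_boole]
    congr 2
    ext W
    rw [Finset.mem_filter]
    exact ⟨fun hW => ⟨A_mono β X Q p x v s L hW, hW⟩, fun hW => hW.2⟩
  rw [Finset.sum_congr rfl h1, Finset.sum_comm]
  have h2 : ∀ W ∈ A β X Q x s L, ∑ v ∈ range p,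
      (if W ∈ A β X (Q * p) (x + Q * v) s L then (1 : ℝ) else 0) ≤ p * (1 - 1 / (2 * H)) := by
    intro W _
    rw [Finset.sum_boole]
    refine le_trans ?_ (card_small_le (c := fun i => c (fun j => ext W (r + p * (i + h j))) i)
      hp hpQ hpH hH1 (fun i => hc _ _) ((x + β * (s + r)) / p) hK)
    have h3 : (range p).filter (fun v : ℕ => W ∈ A β X (Q * p) (x + Q * v) s L) ⊆
        (range p).filter fun v : ℕ => ‖∑ i ∈ Icc 1 H,
          e (((x + β * (s + r)) / p + (Q : ℝ) * v / p) * i) *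
            c (fun j => ext W (r + p * (i + h j))) i‖ ≤ K := by
      intro v hv
      rw [Finset.mem_filter] at hv ⊢
      refine ⟨hv.1, ?_⟩
      have h4 := constraint hc hX hhm hp.one_le (dvd_mul_left p Q) hr hpr hL hv.2
      have h5 : ∀ i : ℕ, (x + Q * v + β * (s + r)) / p * i
          = ((x + β * (s + r)) / p + (Q : ℝ) * v / p) * i := by
        intro i; ring
      simp_rw [h5] at h4
      exact h4
    exact_mod_cast Finset.card_le_card h3
  refine (Finset.sum_le_sum h2).trans ?_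
  rw [Finset.sum_const, nsmul_eq_mul]
  exact le_of_eq (by ring)

lemma sum_log_le {β K : ℝ} (hβ : Irrational β) {H : ℕ} {X : ℕ → S} {h : Fin ℓ → ℕ}
    {c : (Fin ℓ → S) → ℕ → ℂ}
    (hc : ∀ f i, ‖c f i‖ = 1)
    (hX : ∀ p k0 : ℕ, 1 ≤ p →
      ‖∑ i ∈ Icc 1 H, e (β * k0 * i) * c (fun j => X (p * k0 + p * (i + h j))) i‖ ≤ K)
    (hH1 : 1 ≤ H) (hK : 2 * K ^ 2 ≤ H)
    {hm p Q s L : ℕ} (hhm : ∀ j, h j ≤ hm) (hp : p.Prime) (hpQ : ¬ p ∣ Q) (hpH : H ≤ p)
    (hQ : 0 < Q) (hL : p * (H + hm + 1) ≤ L) (x : ℝ) :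
    ∑ v ∈ range p, Real.log ((A β X (Q * p) (x + Q * v) s L).card : ℝ)
      ≤ p * (Real.log ((A β X Q x s L).card : ℝ) - 1 / (2 * H)) := by
  have hpos : (0 : ℝ) < (A β X Q x s L).card := by
    exact_mod_cast (A_nonempty hβ X hQ x s L).card_pos
  have h1 : ∀ v ∈ range p, Real.log ((A β X (Q * p) (x + Q * v) s L).card : ℝ) ≤
      Real.log ((A β X Q x s L).card : ℝ) +
        ((A β X (Q * p) (x + Q * v) s L).card : ℝ) / (A β X Q x s L).card - 1 := by
    intro v _
    have hpos' : (0 : ℝ) < (A β X (Q * p) (x + Q * v) s L).card := by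
      exact_mod_cast (A_nonempty hβ X (Nat.mul_pos hQ hp.pos) _ s L).card_pos
    have := Real.log_le_sub_one_of_pos (div_pos hpos' hpos)
    rw [Real.log_div hpos'.ne' hpos.ne'] at this
    linarith
  refine (Finset.sum_le_sum h1).trans ?_
  have h2 := sum_card_le hc hX hH1 hK hhm hp hpQ hpH hL x (s := s)
  rw [Finset.sum_sub_distrib, Finset.sum_add_distrib, ← Finset.sum_div]
  simp only [Finset.sum_const, Finset.card_range, nsmul_eq_mul, mul_one]
  have h3 : (∑ v ∈ range p, ((A β X (Q * p) (x + Q * v) s L).card : ℝ)) /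
      (A β X Q x s L).card ≤ p * (1 - 1 / (2 * H)) := by
    rw [div_le_iff₀ hpos]
    exact h2
  calc (p : ℝ) * Real.log ((A β X Q x s L).card : ℝ) +
      (∑ v ∈ range p, ((A β X (Q * p) (x + Q * v) s L).card : ℝ)) / (A β X Q x s L).card - p
      ≤ p * Real.log ((A β X Q x s L).card : ℝ) + p * (1 - 1 / (2 * H)) - p := by linarith
    _ = _ := by ring

/-- Adding one prime: some member of the fibre has smaller total log-count. -/
lemma exists_step {β K : ℝ} (hβ : Irrational β) {H : ℕ} {X : ℕ → S} {h : Fin ℓ → ℕ}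
    {c : (Fin ℓ → S) → ℕ → ℂ}
    (hc : ∀ f i, ‖c f i‖ = 1)
    (hX : ∀ p k0 : ℕ, 1 ≤ p →
      ‖∑ i ∈ Icc 1 H, e (β * k0 * i) * c (fun j => X (p * k0 + p * (i + h j))) i‖ ≤ K)
    (hH1 : 1 ≤ H) (hK : 2 * K ^ 2 ≤ H)
    {hm p Q N L : ℕ} (hhm : ∀ j, h j ≤ hm) (hp : p.Prime) (hpQ : ¬ p ∣ Q) (hpH : H ≤ p)
    (hQ : 0 < Q) (hL : p * (H + hm + 1) ≤ L) (x : ℝ) :
    ∃ x' : ℝ, ∑ j ∈ range N, Real.log ((A β X (Q * p) x' (j * L) L).card : ℝ)
      ≤ ∑ j ∈ range N, Real.log ((A β X Q x (j * L) L).card : ℝ) - N * (1 / (2 * H)) := by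
  have h1 : ∑ v ∈ range p, ∑ j ∈ range N,
      Real.log ((A β X (Q * p) (x + Q * v) (j * L) L).card : ℝ)
      ≤ ∑ v ∈ range p, (∑ j ∈ range N, Real.log ((A β X Q x (j * L) L).card : ℝ)
        - N * (1 / (2 * H))) := by
    rw [Finset.sum_comm]
    have h2 : ∀ j ∈ range N, ∑ v ∈ range p,
        Real.log ((A β X (Q * p) (x + Q * v) (j * L) L).card : ℝ)
        ≤ p * (Real.log ((A β X Q x (j * L) L).card : ℝ) - 1 / (2 * H)) := fun j _ =>
      sum_log_le hβ hc hX hH1 hK hhm hp hpQ hpH hQ hL x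
    refine (Finset.sum_le_sum h2).trans (le_of_eq ?_)
    rw [← Finset.mul_sum, Finset.sum_sub_distrib]
    simp only [Finset.sum_const, Finset.card_range, nsmul_eq_mul]
  obtain ⟨v, _, hv⟩ := Finset.exists_le_of_sum_le (Finset.nonempty_range_iff.mpr hp.ne_zero) h1
  exact ⟨_, hv⟩

/-- Adding a finite set of primes at one scale. -/
lemma exists_steps {β K : ℝ} (hβ : Irrational β) {H : ℕ} {X : ℕ → S} {h : Fin ℓ → ℕ}
    {c : (Fin ℓ → S) → ℕ → ℂ}
    (hc : ∀ f i, ‖c f i‖ = 1)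
    (hX : ∀ p k0 : ℕ, 1 ≤ p →
      ‖∑ i ∈ Icc 1 H, e (β * k0 * i) * c (fun j => X (p * k0 + p * (i + h j))) i‖ ≤ K)
    (hH1 : 1 ≤ H) (hK : 2 * K ^ 2 ≤ H)
    {hm Q N L : ℕ} (hhm : ∀ j, h j ≤ hm) (hQ : 0 < Q) (x : ℝ) (P : Finset ℕ)
    (hP : ∀ p ∈ P, p.Prime ∧ ¬ p ∣ Q ∧ H ≤ p ∧ p * (H + hm + 1) ≤ L) :
    ∃ (Q' : ℕ) (x' : ℝ), 0 < Q' ∧ (∀ q : ℕ, q.Prime → q ∣ Q' → q ∣ Q ∨ q ∈ P) ∧
      ∑ j ∈ range N, Real.log ((A β X Q' x' (j * L) L).card : ℝ)
      ≤ ∑ j ∈ range N, Real.log ((A β X Q x (j * L) L).card : ℝ) - P.card * (N * (1 / (2 * H))) := by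
  classical
  induction P using Finset.induction_on with
  | empty => exact ⟨Q, x, hQ, fun q _ hq => Or.inl hq, by simp⟩
  | insert p P hpP ih =>
    obtain ⟨Q', x', hQ', hdiv, hle⟩ := ih fun q hq => hP q (Finset.mem_insert_of_mem hq)
    obtain ⟨hp, hpQ, hpH, hpL⟩ := hP p (Finset.mem_insert_self _ _)
    have hpQ' : ¬ p ∣ Q' := by
      intro hd
      rcases hdiv p hp hd with h1 | h1
      · exact hpQ h1
      · exact hpP h1
    obtain ⟨x'', hx''⟩ := exists_step (N := N) hβ hc hX hH1 hK hhm hp hpQ' hpH hQ' hpL x'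
    refine ⟨Q' * p, x'', Nat.mul_pos hQ' hp.pos, ?_, ?_⟩
    · intro q hq hqd
      rcases (Nat.Prime.dvd_mul hq).mp hqd with h1 | h1
      · rcases hdiv q hq h1 with h2 | h2
        · exact Or.inl h2
        · exact Or.inr (Finset.mem_insert_of_mem h2)
      · right
        rw [(Nat.prime_dvd_prime_iff_eq hq hp).mp h1]
        exact Finset.mem_insert_self _ _
    · rw [Finset.card_insert_of_notMem hpP]
      push_cast
      linarith

lemma sum_range_two_mul (f : ℕ → ℝ) (N : ℕ) :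
    ∑ j ∈ range (2 * N), f j = ∑ j ∈ range N, (f (2 * j) + f (2 * j + 1)) := by
  induction N with
  | zero => simp
  | succ N ih =>
    rw [show 2 * (N + 1) = 2 * N + 1 + 1 by ring, Finset.sum_range_succ, Finset.sum_range_succ,
      ih, Finset.sum_range_succ]
    ring

/-- Merging windows in pairs does not increase the total log-count. -/
lemma merge {β : ℝ} (hβ : Irrational β) (X : ℕ → S) {Q : ℕ} (hQ : 0 < Q) (x : ℝ) (N L : ℕ) :
    ∑ j ∈ range N, Real.log ((A β X Q x (j * (2 * L)) (2 * L)).card : ℝ)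
      ≤ ∑ j ∈ range (2 * N), Real.log ((A β X Q x (j * L) L).card : ℝ) := by
  rw [sum_range_two_mul]
  refine Finset.sum_le_sum fun j _ => ?_
  have h1 := card_A_add β X Q x (j * (2 * L)) L L
  have hpos : ∀ s L : ℕ, (0 : ℝ) < (A β X Q x s L).card := fun s L => by
    exact_mod_cast (A_nonempty hβ X hQ x s L).card_pos
  rw [← Real.log_mul (hpos _ _).ne' (hpos _ _).ne']
  apply Real.log_le_log (hpos _ _)
  rw [show 2 * L = L + L by ring] at *
  have h2 : j * (L + L) = 2 * j * L := by ring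
  have h3 : 2 * j * L + L = (2 * j + 1) * L := by ring
  rw [h2] at h1 ⊢
  rw [h3] at h1
  exact_mod_cast h1

/-- The primes `p ≥ H` in the dyadic interval `(2^i, 2^(i+1)]`. -/
def PP (H i : ℕ) : Finset ℕ := (Ioc (2 ^ i) (2 ^ (i + 1))).filter fun p => p.Prime ∧ H ≤ p

omit [Fintype S] [Nonempty S] in
lemma mem_PP {H i p : ℕ} : p ∈ PP H i ↔ (2 ^ i < p ∧ p ≤ 2 ^ (i + 1)) ∧ p.Prime ∧ H ≤ p := by
  unfold PP
  rw [Finset.mem_filter, Finset.mem_Ioc]

/-- The main induction over the scales. -/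
lemma main_induction {β K : ℝ} (hβ : Irrational β) {H : ℕ} {X : ℕ → S} {h : Fin ℓ → ℕ}
    {c : (Fin ℓ → S) → ℕ → ℂ}
    (hc : ∀ f i, ‖c f i‖ = 1)
    (hX : ∀ p k0 : ℕ, 1 ≤ p →
      ‖∑ i ∈ Icc 1 H, e (β * k0 * i) * c (fun j => X (p * k0 + p * (i + h j))) i‖ ≤ K)
    (hH1 : 1 ≤ H) (hK : 2 * K ^ 2 ≤ H) {hm : ℕ} (hhm : ∀ j, h j ≤ hm) (M : ℕ) :
    ∀ k ≤ M, ∃ (Q : ℕ) (x : ℝ), 0 < Q ∧ (∀ q : ℕ, q.Prime → q ∣ Q → q ≤ 2 ^ k) ∧
      ∑ j ∈ range (2 ^ (M - k)), Real.log
          ((A β X Q x (j * (2 ^ k * (H + hm + 1))) (2 ^ k * (H + hm + 1))).card : ℝ)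
        ≤ 2 ^ M * ((H + hm + 1 : ℕ) * Real.log (Fintype.card S))
          - ∑ i ∈ range k, ((PP H i).card : ℝ) * (2 ^ (M - (i + 1)) * (1 / (2 * H))) := by
  intro k
  induction k with
  | zero =>
    intro _
    refine ⟨1, 0, one_pos, ?_, ?_⟩
    · intro q hq hq1
      exact absurd (Nat.dvd_one.mp hq1) hq.ne_one
    · have e0 : 2 ^ 0 * (H + hm + 1) = H + hm + 1 := by simp
      rw [e0]
      simp only [Nat.sub_zero, range_zero, Finset.sum_empty, sub_zero]
      have h1 : ∀ j ∈ range (2 ^ M), Real.log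
          ((A β X 1 0 (j * (H + hm + 1)) (H + hm + 1)).card : ℝ)
          ≤ (H + hm + 1 : ℕ) * Real.log (Fintype.card S) := by
        intro j _
        rw [← Real.log_pow]
        apply Real.log_le_log
        · exact_mod_cast (A_nonempty hβ X one_pos 0 _ _).card_pos
        · have h2 : (A β X 1 0 (j * (H + hm + 1)) (H + hm + 1)).card
              ≤ Fintype.card (Fin (H + hm + 1) → S) := Finset.card_le_univ _
          rw [Fintype.card_fun, Fintype.card_fin] at h2
          exact_mod_cast h2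
      refine (Finset.sum_le_sum h1).trans ?_
      rw [Finset.sum_const, Finset.card_range, nsmul_eq_mul]
      push_cast
      exact le_refl _
  | succ k ih =>
    intro hkM
    obtain ⟨Q, x, hQ, hdiv, hle⟩ := ih (by omega)
    have h1 := merge hβ X hQ x (2 ^ (M - (k + 1))) (2 ^ k * (H + hm + 1))
    have hpow : 2 * 2 ^ (M - (k + 1)) = 2 ^ (M - k) := by
      rw [← pow_succ']
      congr 1
      omega
    have hpow2 : 2 * (2 ^ k * (H + hm + 1)) = 2 ^ (k + 1) * (H + hm + 1) := by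
      rw [pow_succ]; ring
    rw [hpow, hpow2] at h1
    obtain ⟨Q', x', hQ', hdiv', hle'⟩ := exists_steps (N := 2 ^ (M - (k + 1)))
      (L := 2 ^ (k + 1) * (H + hm + 1)) hβ hc hX hH1 hK hhm hQ x (PP H k) (by
        intro p hp
        rw [mem_PP] at hp
        refine ⟨hp.2.1, ?_, hp.2.2, Nat.mul_le_mul_right _ hp.1.2⟩
        intro hpd
        have := hdiv p hp.2.1 hpd
        omega)
    refine ⟨Q', x', hQ', ?_, ?_⟩
    · intro q hq hqd
      rcases hdiv' q hq hqd with h2 | h2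
      · exact (hdiv q hq h2).trans (Nat.pow_le_pow_right (by norm_num) (by omega))
      · exact (mem_PP.mp h2).1.2
    · rw [Finset.sum_range_succ]
      have hc1 : (((2 ^ (M - (k + 1)) : ℕ)) : ℝ) = 2 ^ (M - (k + 1)) := by push_cast; rfl
      rw [hc1] at hle'
      linarith

/-- The core contradiction. -/
theorem core {β K : ℝ} (hβ : Irrational β) {H : ℕ} {X : ℕ → S} {h : Fin ℓ → ℕ}
    {c : (Fin ℓ → S) → ℕ → ℂ}
    (hc : ∀ f i, ‖c f i‖ = 1)
    (hX : ∀ p k0 : ℕ, 1 ≤ p →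
      ‖∑ i ∈ Icc 1 H, e (β * k0 * i) * c (fun j => X (p * k0 + p * (i + h j))) i‖ ≤ K)
    (hH1 : 1 ≤ H) (hK : 2 * K ^ 2 ≤ H) : False := by
  classical
  obtain ⟨hm, hhm⟩ : ∃ hm, ∀ j, h j ≤ hm :=
    ⟨univ.sup h, fun j => Finset.le_sup (f := h) (mem_univ j)⟩
  have hH0 : (0 : ℝ) < H := by exact_mod_cast hH1
  set B : ℝ := 2 * (2 * H * ((H + hm + 1 : ℕ) * Real.log (Fintype.card S))) with hB
  -- bound for the weighted number of primes
  have h1 : ∀ M : ℕ, ∑ i ∈ range M, ((PP H i).card : ℝ) / 2 ^ i ≤ B := by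
    intro M
    obtain ⟨Q, x, hQ, _, hle⟩ := main_induction hβ hc hX hH1 hK hhm M M le_rfl
    have h2 : 0 ≤ ∑ j ∈ range (2 ^ (M - M)), Real.log
          ((A β X Q x (j * (2 ^ M * (H + hm + 1))) (2 ^ M * (H + hm + 1))).card : ℝ) := by
      apply Finset.sum_nonneg
      intro j _
      exact Real.log_natCast_nonneg _
    have h3 : ∑ i ∈ range M, ((PP H i).card : ℝ) * (2 ^ (M - (i + 1)) * (1 / (2 * H)))
        = (2 ^ M * (1 / (2 * H)) / 2) * ∑ i ∈ range M, ((PP H i).card : ℝ) / 2 ^ i := by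
      rw [Finset.mul_sum]
      refine Finset.sum_congr rfl fun i hi => ?_
      rw [Finset.mem_range] at hi
      have h4 : (2 : ℝ) ^ M = 2 ^ (M - (i + 1)) * 2 ^ i * 2 := by
        rw [← pow_add, ← pow_succ]
        congr 1
        omega
      rw [h4]
      field_simp
    rw [h3] at hle
    have h5 : (2 ^ M * (1 / (2 * H)) / 2) * ∑ i ∈ range M, ((PP H i).card : ℝ) / 2 ^ i
        ≤ (2 ^ M * (1 / (2 * H)) / 2) * B := by
      have h6 : (2 ^ M * (1 / (2 * (H : ℝ))) / 2) * B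
          = 2 ^ M * ((H + hm + 1 : ℕ) * Real.log (Fintype.card S)) := by
        rw [hB]
        field_simp
      rw [h6]
      linarith
    exact le_of_mul_le_mul_left h5 (by positivity)
  -- divergence of the sum of reciprocals of the primes
  let g : ℕ → ℝ := Set.indicator {p | p.Prime} (fun n : ℕ => (1 : ℝ) / n)
  have hg0 : ∀ n, 0 ≤ g n := fun n => Set.indicator_nonneg (fun p _ => by positivity) _
  have h2 : ∀ M : ℕ, ∑ p ∈ (Ioc 1 (2 ^ M)).filter (fun p => H ≤ p), g p ≤ B := by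
    intro M
    refine le_trans ?_ (h1 M)
    induction M with
    | zero => simp
    | succ M ih =>
      rw [Finset.sum_range_succ]
      have h3 : (Ioc 1 (2 ^ (M + 1))).filter (fun p => H ≤ p)
          = (Ioc 1 (2 ^ M)).filter (fun p => H ≤ p) ∪
            (Ioc (2 ^ M) (2 ^ (M + 1))).filter (fun p => H ≤ p) := by
        rw [← Finset.filter_union]
        congr 1
        ext p
        have h4 : 1 ≤ 2 ^ M := Nat.one_le_two_pow
        have h5 : 2 ^ M ≤ 2 ^ (M + 1) := Nat.pow_le_pow_right (by norm_num) (by omega)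
        simp only [Finset.mem_union, Finset.mem_Ioc]
        omega
      have h4 : Disjoint ((Ioc 1 (2 ^ M)).filter (fun p => H ≤ p))
          ((Ioc (2 ^ M) (2 ^ (M + 1))).filter (fun p => H ≤ p)) := by
        rw [Finset.disjoint_left]
        intro p hp hp'
        simp only [Finset.mem_filter, Finset.mem_Ioc] at hp hp'
        omega
      rw [h3, Finset.sum_union h4]
      refine add_le_add ih ?_
      have h5 : ∑ p ∈ (Ioc (2 ^ M) (2 ^ (M + 1))).filter (fun p => H ≤ p), g p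
          = ∑ p ∈ PP H M, g p := by
        symm
        apply Finset.sum_subset
        · intro p hp
          rw [mem_PP] at hp
          simp only [Finset.mem_filter, Finset.mem_Ioc]
          exact ⟨hp.1, hp.2.2⟩
        · intro p hp hp'
          rw [mem_PP] at hp'
          simp only [Finset.mem_filter, Finset.mem_Ioc] at hp
          apply Set.indicator_of_notMem
          intro hpr
          exact hp' ⟨hp.1, hpr, hp.2⟩
      rw [h5]
      have h6 : ∀ p ∈ PP H M, g p ≤ 1 / 2 ^ M := by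
        intro p hp
        rw [mem_PP] at hp
        have : g p = 1 / p := Set.indicator_of_mem (by exact hp.2.1) _
        rw [this]
        apply one_div_le_one_div_of_le (by positivity)
        exact_mod_cast hp.1.1.le
      refine (Finset.sum_le_sum h6).trans ?_
      rw [Finset.sum_const, nsmul_eq_mul]
      exact le_of_eq (by ring)
  apply not_summable_one_div_on_primes
  rw [← summable_nat_add_iff (H + 2)]
  apply summable_of_sum_range_le (c := B) (fun n => hg0 _)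
  intro n
  refine le_trans ?_ (h2 (n + H + 2))
  have h3 : ∑ i ∈ range n, g (i + (H + 2)) = ∑ p ∈ (range n).map (addRightEmbedding (H + 2)), g p := by
    rw [Finset.sum_map]
    rfl
  rw [h3]
  apply Finset.sum_le_sum_of_subset_of_nonneg
  · intro p hp
    rw [Finset.mem_map] at hp
    obtain ⟨i, hi, rfl⟩ := hp
    rw [Finset.mem_range] at hi
    simp only [addRightEmbedding_apply, Finset.mem_filter, Finset.mem_Ioc]
    have h4 : n + H + 2 < 2 ^ (n + H + 2) := Nat.lt_two_pow_self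
    omega
  · intro p _ _
    exact hg0 p

end words

end Pool.Agent.Lib.MP_10145b_nt
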